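import Mathlib

set_option autoImplicit false

namespace Pool.Agent.Lib_helper59.Omega

open MvPolynomial

/-- `R = F₂[e₁, e₂, …]`; the variable `X k` is the elementary symmetric function `e_{k+1}`. -/
abbrev R : Type := MvPolynomial ℕ (ZMod 2)

/-- The elementary symmetric functions: `e 0 = 1`, `e (k+1) = X k`. -/
noncomputable def e : ℕ → R
  | 0 => 1
  | (k + 1) => X k

/-- The complete homogeneous symmetric functions: `h 0 = 1` and `∑_{i=0}^{k} e_i h_{k-i} = 0`
for `k ≥ 1`, that is, `h_{k+1} = ∑_{i=0}^{k} e_{i+1} h_{k-i}` (the characteristic is `2`). -/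
noncomputable def h : ℕ → R
  | 0 => 1
  | (k + 1) => ∑ i : Fin (k + 1), e (i.val + 1) * h (k - i.val)

/-- The ring endomorphism `ω` of `R` with `ω(e_k) = h_k` for `k ≥ 1`. -/
noncomputable def ω : R →ₐ[ZMod 2] R := aeval (fun k => h (k + 1))

/-- The subring `S = R^ω = {x : ω x = x}`. -/
noncomputable def S : Subring R := (ω : R →+* R).eqLocus (RingHom.id R)

lemma mem_S {x : R} : x ∈ S ↔ ω x = x := Iff.rfl

/-- The ideal `I = {x + ω x : x ∈ R}` of `S`. -/
noncomputable def I : Ideal S where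
  carrier := {s | ∃ x : R, (s : R) = x + ω x}
  add_mem' := by
    rintro a b ⟨x, hx⟩ ⟨y, hy⟩
    exact ⟨x + y, by rw [Subring.coe_add, hx, hy, map_add]; ring⟩
  zero_mem' := ⟨0, by simp⟩
  smul_mem' := by
    rintro c a ⟨x, hx⟩
    refine ⟨c * x, ?_⟩
    have hc : ω (c : R) = c := mem_S.1 c.2
    rw [smul_eq_mul, Subring.coe_mul, hx, map_mul, hc]; ring

end Pool.Agent.Lib_helper59.Omega
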