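import Mathlib
import Pool.Agent.Lib_helper59.OmegaDefs

set_option autoImplicit false

namespace Pool.Agent.Lib_helper59.Omega

open MvPolynomial

lemma add_self (x : R) : x + x = 0 := CharTwo.add_self_eq_zero x

lemma sum_h (k : ℕ) : h (k + 1) = ∑ p ∈ Finset.HasAntidiagonal.antidiagonal k, e (p.1 + 1) * h p.2 := by
  rw [h, Finset.Nat.sum_antidiagonal_eq_sum_range_succ_mk, Finset.sum_range]

lemma antidiag_zero (k : ℕ) : ∑ p ∈ Finset.HasAntidiagonal.antidiagonal (k + 1), e p.1 * h p.2 = 0 := by
  rw [Finset.Nat.sum_antidiagonal_succ]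
  simp only [e]
  rw [one_mul, sum_h]
  exact add_self _

/-- the defining relation of the problem. -/
lemma range_zero (k : ℕ) (hk : 1 ≤ k) : ∑ i ∈ Finset.range (k + 1), e i * h (k - i) = 0 := by
  obtain ⟨k, rfl⟩ : ∃ m, k = m + 1 := ⟨k - 1, by omega⟩
  rw [← Finset.Nat.sum_antidiagonal_eq_sum_range_succ (fun i j => e i * h j)]
  exact antidiag_zero k

noncomputable def Es : PowerSeries R := PowerSeries.mk e
noncomputable def Hs : PowerSeries R := PowerSeries.mk h

lemma Es_mul_Hs : Es * Hs = 1 := by
  ext k : 1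
  rw [PowerSeries.coeff_mul]
  simp only [Es, Hs, PowerSeries.coeff_mk]
  cases k with
  | zero => simp [e, h]
  | succ k => rw [antidiag_zero, PowerSeries.coeff_one]; simp

lemma ω_e (k : ℕ) : ω (e k) = h k := by
  cases k with
  | zero => simp [e, h]
  | succ k => simp [e, ω]

lemma map_Es : PowerSeries.map (ω : R →+* R) Es = Hs := by
  ext k : 1
  simp only [Es, Hs, PowerSeries.coeff_mk, PowerSeries.coeff_map]
  exact ω_e k

lemma map_Hs : PowerSeries.map (ω : R →+* R) Hs = Es := by
  have h1 : PowerSeries.map (ω : R →+* R) (Es * Hs) = 1 := by rw [Es_mul_Hs, map_one]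
  rw [map_mul, map_Es] at h1
  calc PowerSeries.map (ω : R →+* R) Hs = (Es * Hs) * PowerSeries.map (ω : R →+* R) Hs := by
        rw [Es_mul_Hs, one_mul]
    _ = Es * (Hs * PowerSeries.map (ω : R →+* R) Hs) := by ring
    _ = Es := by rw [h1, mul_one]

lemma ω_h (k : ℕ) : ω (h k) = e k := by
  have := congrArg (PowerSeries.coeff k) map_Hs
  simp only [Es, Hs, PowerSeries.coeff_mk, PowerSeries.coeff_map] at this
  exact this

lemma ω_ω (x : R) : ω (ω x) = x := by
  have h1 : (ω.comp ω) = AlgHom.id (ZMod 2) R := by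
    apply MvPolynomial.algHom_ext
    intro k
    have h2 : (X k : R) = e (k + 1) := rfl
    rw [h2, AlgHom.comp_apply, ω_e, ω_h]; rfl
  exact DFunLike.congr_fun h1 x

/-- `d x = x + ω x` -/
noncomputable def d (x : R) : R := x + ω x

lemma d_add (x y : R) : d (x + y) = d x + d y := by
  simp only [d, map_add]; ring

lemma d_mem_S (x : R) : d x ∈ S := by
  rw [mem_S, d, map_add, ω_ω]; ring

lemma mem_S_iff_d {x : R} : x ∈ S ↔ d x = 0 := by
  rw [mem_S, d]
  constructor
  · intro hx; rw [hx]; exact add_self x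
  · intro hx
    have : x + (x + ω x) = x + 0 := by rw [hx]
    rw [← add_assoc, add_self, zero_add, add_zero] at this
    exact this

lemma d_mul (x y : R) : d (x * y) = x * d y + ω y * d x := by
  simp only [d, map_mul]
  have := add_self (x * ω y)
  linear_combination (-1 : R) * this

lemma d_mul_left {x : R} (hx : ω x = x) (y : R) : d (x * y) = x * d y := by
  rw [d_mul]
  have : d x = 0 := by rw [d, hx]; exact add_self x
  rw [this]; ring

/-- `E + H = (E² + 1) H`, coefficientwise. -/
lemma Es_add_Hs : Es + Hs = (Es ^ 2 + 1) * Hs := by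
  have : Es ^ 2 * Hs = Es := by
    rw [pow_two, mul_assoc, Es_mul_Hs, mul_one]
  rw [add_mul, this, one_mul]

/-- coefficients of `E²`. -/
lemma coeff_Es_sq (m : ℕ) : PowerSeries.coeff m (Es ^ 2) = if Even m then (e (m / 2)) ^ 2 else 0 := by
  rw [pow_two, PowerSeries.coeff_mul]
  simp only [Es, PowerSeries.coeff_mk]
  -- pair up (i,j) and (j,i)
  have key : ∑ p ∈ (Finset.HasAntidiagonal.antidiagonal m).filter (fun p => p.1 ≠ p.2), e p.1 * e p.2 = 0 := by
    refine Finset.sum_involution (fun p _ => (p.2, p.1)) ?_ ?_ ?_ ?_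
    · intro p _; simp only; rw [mul_comm (e p.2)]; exact add_self _
    · intro p hp _ heq
      rw [Finset.mem_filter] at hp
      apply hp.2
      have := congrArg Prod.fst heq
      exact this.symm
    · intro p hp
      rw [Finset.mem_filter, Finset.HasAntidiagonal.mem_antidiagonal] at hp ⊢
      exact ⟨by simp only; omega, fun h => hp.2 h.symm⟩
    · intro p _; rfl
  rw [← Finset.sum_filter_add_sum_filter_not (Finset.HasAntidiagonal.antidiagonal m) (fun p => p.1 ≠ p.2), key,
    zero_add]
  split_ifs with hm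
  · obtain ⟨r, hr⟩ := hm
    have : (Finset.HasAntidiagonal.antidiagonal m).filter (fun p => ¬ (p.1 ≠ p.2)) = {(r, r)} := by
      ext p
      simp only [Finset.mem_filter, Finset.HasAntidiagonal.mem_antidiagonal, ne_eq, not_not, Finset.mem_singleton]
      constructor
      · rintro ⟨h1, h2⟩; ext <;> simp <;> omega
      · rintro rfl; exact ⟨by simp only; omega, rfl⟩
    rw [this, Finset.sum_singleton]
    have h2 : m / 2 = r := by omega
    rw [h2]; ring
  · have : (Finset.HasAntidiagonal.antidiagonal m).filter (fun p => ¬ (p.1 ≠ p.2)) = ∅ := by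
      rw [Finset.filter_eq_empty_iff]
      intro p hp
      rw [Finset.HasAntidiagonal.mem_antidiagonal] at hp
      intro h
      apply hm
      simp only [ne_eq, not_not] at h
      exact ⟨p.1, by omega⟩
    rw [this, Finset.sum_empty]

end Pool.Agent.Lib_helper59.Omega
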