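import Mathlib
import Pool.Agent.Lib_helper59.OmegaA

set_option autoImplicit false

namespace Pool.Agent.Lib_helper59.Omega

open MvPolynomial Finset.HasAntidiagonal

/-- coefficients of `E² + 1`. -/
noncomputable def c (a : ℕ) : R := if a = 0 then 0 else if Even a then (e (a / 2)) ^ 2 else 0

lemma coeff_sq_add_one (a : ℕ) : PowerSeries.coeff a (Es ^ 2 + 1) = c a := by
  rw [map_add, coeff_Es_sq, PowerSeries.coeff_one, c]
  by_cases h0 : a = 0
  · subst h0
    simp [e]
    exact add_self 1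
  · simp [h0]

lemma e_add_h (k : ℕ) : e k + h k = ∑ p ∈ antidiagonal k, c p.1 * h p.2 := by
  have := congrArg (PowerSeries.coeff k) Es_add_Hs
  rw [PowerSeries.coeff_mul, map_add] at this
  simp only [coeff_sq_add_one] at this
  simp only [Es, Hs, PowerSeries.coeff_mk] at this
  exact this

lemma d_e (k : ℕ) : d (e k) = ∑ p ∈ antidiagonal k, c p.1 * h p.2 := by
  rw [d, ω_e, e_add_h]

/-- `Y i = d e_{2i+2}`. -/
noncomputable def Y (i : ℕ) : R := d (X (2 * i + 1))

lemma Y_eq (i : ℕ) : Y i = d (e (2 * (i + 1))) := rfl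

lemma ω_Y (i : ℕ) : ω (Y i) = Y i := mem_S.1 (d_mem_S _)

/-- the augmentation ideal -/
noncomputable abbrev m0 : Ideal R := idealOfVars ℕ (ZMod 2)

lemma X_mem (k : ℕ) : (X k : R) ∈ m0 := Ideal.subset_span ⟨k, rfl⟩

lemma e_mem {k : ℕ} (hk : 1 ≤ k) : e k ∈ m0 := by
  obtain ⟨k, rfl⟩ : ∃ m, k = m + 1 := ⟨k - 1, by omega⟩
  exact X_mem k

lemma h_mem {k : ℕ} (hk : 1 ≤ k) : h k ∈ m0 := by
  obtain ⟨k, rfl⟩ : ∃ m, k = m + 1 := ⟨k - 1, by omega⟩
  rw [sum_h]
  exact Ideal.sum_mem _ (fun p _ => Ideal.mul_mem_right _ _ (e_mem (by omega)))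

/-- `Y i - X i ^ 2` is a combination of `X j ^ 2`, `j < i` with coefficients in `m0`. -/
lemma Y_sub (i : ℕ) {J : Ideal R} (hJ : ∀ j < i, ∀ y ∈ m0, (X j : R) ^ 2 * y ∈ J) :
    Y i - X i ^ 2 ∈ J := by
  rw [Y_eq, d_e]
  have h1 : (2 * (i + 1), 0) ∈ (antidiagonal (2 * (i + 1)) : Finset (ℕ × ℕ)) := by
    rw [mem_antidiagonal]; simp
  rw [← Finset.add_sum_erase _ _ h1]
  have h2 : c (2 * (i + 1)) * h 0 = (X i : R) ^ 2 := by
    have : e (i + 1) = X i := rfl
    simp [c, h, this]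
  simp only [h2]
  rw [add_sub_cancel_left]
  refine Ideal.sum_mem _ (fun p hp => ?_)
  rw [Finset.mem_erase, mem_antidiagonal] at hp
  obtain ⟨hp1, hp2⟩ := hp
  have hp3 : 1 ≤ p.2 := by
    by_contra hcon
    apply hp1
    ext
    · simp only; omega
    · simp only; omega
  rw [c]
  split_ifs with h3 h4
  · simp
  · obtain ⟨r, hr⟩ := h4
    have h5 : p.1 / 2 = (r - 1) + 1 := by omega
    rw [h5]
    exact hJ (r - 1) (by omega) _ (h_mem hp3)
  · simp

lemma Y_lead (i : ℕ) : Y i - X i ^ 2 ∈ m0 ^ 3 := by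
  refine Y_sub i (fun j _ y hy => ?_)
  rw [show (3 : ℕ) = 2 + 1 by rfl, pow_succ]
  exact Ideal.mul_mem_mul (Ideal.pow_mem_pow (X_mem j) 2) hy

/-- the ideal generated by the `Y i`. -/
noncomputable def J : Ideal R := Ideal.span (Set.range Y)

lemma Y_mem_J (i : ℕ) : Y i ∈ J := Ideal.subset_span ⟨i, rfl⟩

lemma sq_mem_J (i : ℕ) : (X i : R) ^ 2 ∈ J := by
  induction i using Nat.strong_induction_on with
  | _ i ih =>
    have h1 : Y i - X i ^ 2 ∈ J := Y_sub i (fun j hj y _ => Ideal.mul_mem_right _ _ (ih j hj))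
    have h2 := J.sub_mem (Y_mem_J i) h1
    rwa [sub_sub_cancel] at h2

lemma d_e_mem_J (k : ℕ) : d (e k) ∈ J := by
  rw [d_e]
  refine Ideal.sum_mem _ (fun p _ => Ideal.mul_mem_right _ _ ?_)
  rw [c]
  split_ifs with h3 h4
  · simp
  · obtain ⟨r, hr⟩ := h4
    have h5 : p.1 / 2 = (r - 1) + 1 := by omega
    rw [h5]
    exact sq_mem_J (r - 1)
  · simp

lemma d_mem_J (x : R) : d x ∈ J := by
  induction x using MvPolynomial.induction_on with
  | C a =>
    have : d (C a) = 0 := by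
      rw [d]
      have : ω (C a) = C a := by
        rw [← MvPolynomial.algebraMap_eq]; exact ω.commutes a
      rw [this]; exact add_self _
    rw [this]; exact J.zero_mem
  | add p q hp hq => rw [d_add]; exact J.add_mem hp hq
  | mul_X p k hp =>
    rw [d_mul]
    refine J.add_mem (Ideal.mul_mem_left _ _ (d_e_mem_J (k + 1))) (Ideal.mul_mem_left _ _ hp)

/-- weights -/
def w (k : ℕ) : ℕ := k + 1

lemma e_whom (k : ℕ) : IsWeightedHomogeneous w (e k) k := by
  cases k with
  | zero => exact isWeightedHomogeneous_one _ _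
  | succ k => exact isWeightedHomogeneous_X _ _ _

lemma h_whom (k : ℕ) : IsWeightedHomogeneous w (h k) k := by
  induction k using Nat.strong_induction_on with
  | _ k ih =>
    cases k with
    | zero => rw [h]; exact isWeightedHomogeneous_one _ _
    | succ k =>
      rw [sum_h]
      refine IsWeightedHomogeneous.sum _ _ _ (fun p hp => ?_)
      rw [mem_antidiagonal] at hp
      have h1 := (e_whom (p.1 + 1)).mul (ih p.2 (by omega))
      have h2 : p.1 + 1 + p.2 = k + 1 := by omega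
      rwa [h2] at h1

lemma Y_whom (i : ℕ) : IsWeightedHomogeneous w (Y i) (2 * (i + 1)) := by
  rw [Y_eq, d, ω_e]
  exact (e_whom _).add (h_whom _)

/-- the power sum `p_k`. -/
noncomputable def P (k : ℕ) : R := ∑ p ∈ antidiagonal k, (p.1 : R) * (e p.1 * h p.2)

lemma ω_P (k : ℕ) (hk : 1 ≤ k) : ω (P k) = P k := by
  have h1 : ω (P k) = ∑ p ∈ antidiagonal k, (p.2 : R) * (e p.1 * h p.2) := by
    rw [P, map_sum]
    refine Finset.sum_bij' (fun p _ => (p.2, p.1)) (fun p _ => (p.2, p.1)) ?_ ?_ ?_ ?_ ?_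
    · intro p hp; rw [mem_antidiagonal] at hp ⊢; simp only; omega
    · intro p hp; rw [mem_antidiagonal] at hp ⊢; simp only; omega
    · intro p _; rfl
    · intro p _; rfl
    · intro p _
      simp only [map_mul, ω_e, ω_h, map_natCast]
      ring
  have h2 : P k + ω (P k) = 0 := by
    rw [h1, P, ← Finset.sum_add_distrib]
    have : ∀ p ∈ (antidiagonal k : Finset (ℕ × ℕ)),
        ((p.1 : R) * (e p.1 * h p.2) + (p.2 : R) * (e p.1 * h p.2)) = (k : R) * (e p.1 * h p.2) := by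
      intro p hp
      rw [mem_antidiagonal] at hp
      rw [← hp]; push_cast; ring
    rw [Finset.sum_congr rfl this, ← Finset.mul_sum]
    obtain ⟨k, rfl⟩ : ∃ m, k = m + 1 := ⟨k - 1, by omega⟩
    rw [antidiag_zero, mul_zero]
  have h3 := mem_S_iff_d.2 (show d (P k) = 0 from h2)
  exact mem_S.1 h3

lemma P_whom (k : ℕ) : IsWeightedHomogeneous w (P k) k := by
  refine IsWeightedHomogeneous.sum _ _ _ (fun p hp => ?_)
  rw [mem_antidiagonal] at hp
  have h1 := (e_whom p.1).mul (h_whom p.2)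
  rw [hp] at h1
  have h2 : ((p.1 : ℕ) : R) = C ((p.1 : ℕ) : ZMod 2) := by simp
  rw [h2]
  exact h1.C_mul _

lemma P_lead (k : ℕ) (hk : Even k) : P (k + 1) - X k ∈ m0 ^ 2 := by
  have h1 : (k + 1, 0) ∈ (antidiagonal (k + 1) : Finset (ℕ × ℕ)) := by
    rw [mem_antidiagonal]; simp
  rw [P, ← Finset.add_sum_erase _ _ h1]
  have h2 : ((k + 1 : ℕ) : R) * (e (k + 1) * h 0) = (X k : R) := by
    have h3 : e (k + 1) = X k := rfl
    have h4 : ((k + 1 : ℕ) : R) = 1 := by
      obtain ⟨r, hr⟩ := hk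
      subst hr
      push_cast
      rw [add_self]; ring
    rw [h3, h4, h]; ring
  simp only [h2]
  rw [add_sub_cancel_left]
  refine Ideal.sum_mem _ (fun p hp => ?_)
  rw [Finset.mem_erase, mem_antidiagonal] at hp
  obtain ⟨hp1, hp2⟩ := hp
  have hp3 : 1 ≤ p.2 := by
    by_contra hcon
    apply hp1
    ext
    · simp only; omega
    · simp only; omega
  by_cases hp0 : p.1 = 0
  · rw [hp0]; simp
  · refine Ideal.mul_mem_left _ _ ?_
    rw [pow_two]
    exact Ideal.mul_mem_mul (e_mem (by omega)) (h_mem hp3)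

/-- the new generators -/
noncomputable def xx (k : ℕ) : R := if Even k then P (k + 1) else X k

lemma xx_lead (k : ℕ) : xx k - X k ∈ m0 ^ 2 := by
  rw [xx]
  split_ifs with hk
  · exact P_lead k hk
  · simp

lemma xx_whom (k : ℕ) : IsWeightedHomogeneous w (xx k) (k + 1) := by
  rw [xx]
  split_ifs with hk
  · exact P_whom _
  · exact isWeightedHomogeneous_X _ _ _

/-- `d` of the new generators -/
noncomputable def dl (k : ℕ) : R := if Even k then 0 else Y (k / 2)

lemma ω_xx (k : ℕ) : ω (xx k) = xx k + dl k := by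
  rw [xx, dl]
  split_ifs with hk
  · rw [ω_P _ (by omega), add_zero]
  · rw [Nat.not_even_iff_odd] at hk
    obtain ⟨r, hr⟩ := hk
    subst hr
    have h1 : (2 * r + 1) / 2 = r := by omega
    rw [h1, Y, d, ← add_assoc, add_self, zero_add]

end Pool.Agent.Lib_helper59.Omega
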