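import Mathlib
import Pool.Agent.Lib_helper59.OmegaB

set_option autoImplicit false

namespace Pool.Agent.Lib_helper59.Omega

open MvPolynomial

/-- `a` has leading monomial `X^γ` (lowest total degree part). -/
def Lead (a : R) (γ : ℕ →₀ ℕ) : Prop := a - monomial γ 1 ∈ m0 ^ (γ.degree + 1)

lemma monomial_mem (γ : ℕ →₀ ℕ) : (monomial γ 1 : R) ∈ m0 ^ γ.degree := by
  rw [monomial_mem_pow_idealOfVars_iff _ _ one_ne_zero]

lemma Lead.mem {a : R} {γ : ℕ →₀ ℕ} (ha : Lead a γ) : a ∈ m0 ^ γ.degree := by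
  have h1 := Ideal.add_mem _ (Ideal.pow_le_pow_right (Nat.le_succ _) ha) (monomial_mem γ)
  rwa [sub_add_cancel] at h1

lemma Lead.mul {a b : R} {γ δ : ℕ →₀ ℕ} (ha : Lead a γ) (hb : Lead b δ) :
    Lead (a * b) (γ + δ) := by
  have h1 : (monomial (γ + δ) 1 : R) = monomial γ 1 * monomial δ 1 := by
    rw [monomial_mul, one_mul]
  rw [Lead, h1]
  have h2 : a * b - monomial γ 1 * monomial δ 1 =
      (a - monomial γ 1) * b + monomial γ 1 * (b - monomial δ 1) := by ring
  rw [h2]
  refine Ideal.add_mem _ ?_ ?_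
  · have h3 := Ideal.mul_mem_mul ha hb.mem
    rw [← pow_add] at h3
    have h4 : γ.degree + 1 + δ.degree = (γ + δ).degree + 1 := by rw [map_add]; ring
    rwa [h4] at h3
  · have h3 := Ideal.mul_mem_mul (monomial_mem γ) hb
    rw [← pow_add] at h3
    have h4 : γ.degree + (δ.degree + 1) = (γ + δ).degree + 1 := by rw [map_add]; ring
    rwa [h4] at h3

lemma Lead.one : Lead 1 0 := by
  rw [Lead]; simp

lemma Lead.prod {ι : Type*} (s : Finset ι) {a : ι → R} {γ : ι → ℕ →₀ ℕ}
    (ha : ∀ i ∈ s, Lead (a i) (γ i)) : Lead (∏ i ∈ s, a i) (∑ i ∈ s, γ i) := by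
  classical
  induction s using Finset.induction_on with
  | empty => simpa using Lead.one
  | insert i s hi ih =>
    rw [Finset.prod_insert hi, Finset.sum_insert hi]
    exact (ha i (Finset.mem_insert_self _ _)).mul
      (ih (fun j hj => ha j (Finset.mem_insert_of_mem hj)))

lemma Lead.pow {a : R} {γ : ℕ →₀ ℕ} (ha : Lead a γ) (n : ℕ) : Lead (a ^ n) (n • γ) := by
  induction n with
  | zero => simpa using Lead.one
  | succ n ih => rw [pow_succ, succ_nsmul]; exact ih.mul ha

lemma xx_Lead (k : ℕ) : Lead (xx k) (Finsupp.single k 1) := by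
  rw [Lead, Finsupp.degree_single]
  exact xx_lead k

lemma Y_Lead (k : ℕ) : Lead (Y k) (Finsupp.single k 2) := by
  rw [Lead, Finsupp.degree_single]
  have : (monomial (Finsupp.single k 2) 1 : R) = X k ^ 2 := by
    rw [X_pow_eq_monomial]
  rw [this]
  exact Y_lead k

/-- `Y^α` -/
noncomputable def Yp (α : ℕ →₀ ℕ) : R := α.prod (fun k n => Y k ^ n)

lemma Yp_add (α β : ℕ →₀ ℕ) : Yp (α + β) = Yp α * Yp β := by
  rw [Yp, Finsupp.prod_add_index' (by simp) (by intros; rw [pow_add])]; rfl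

lemma Yp_zero : Yp 0 = 1 := by simp [Yp]

lemma Yp_single (k n : ℕ) : Yp (Finsupp.single k n) = Y k ^ n := by
  rw [Yp, Finsupp.prod_single_index]; simp

/-- square-free product of the new generators -/
noncomputable def xp (ε : Finset ℕ) : R := ∏ k ∈ ε, xx k

/-- the basis -/
noncomputable def b (i : (ℕ →₀ ℕ) × Finset ℕ) : R := Yp i.1 * xp i.2

/-- leading exponents -/
noncomputable def lx (i : (ℕ →₀ ℕ) × Finset ℕ) : ℕ →₀ ℕ :=
  2 • i.1 + ∑ k ∈ i.2, Finsupp.single k 1

lemma Yp_Lead (α : ℕ →₀ ℕ) : Lead (Yp α) (2 • α) := by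
  have h1 : 2 • α = ∑ k ∈ α.support, (α k) • Finsupp.single k 2 := by
    conv_lhs => rw [← Finsupp.sum_single α]
    rw [Finsupp.sum, Finset.smul_sum]
    refine Finset.sum_congr rfl (fun k _ => ?_)
    rw [Finsupp.smul_single, Finsupp.smul_single, smul_eq_mul, smul_eq_mul, mul_comm]
  rw [h1, Yp, Finsupp.prod]
  exact Lead.prod _ (fun k _ => (Y_Lead k).pow _)

lemma b_Lead (i : (ℕ →₀ ℕ) × Finset ℕ) : Lead (b i) (lx i) :=
  (Yp_Lead i.1).mul (Lead.prod _ (fun k _ => xx_Lead k))

lemma lx_apply (i : (ℕ →₀ ℕ) × Finset ℕ) (k : ℕ) :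
    lx i k = 2 * i.1 k + if k ∈ i.2 then 1 else 0 := by
  classical
  rw [lx, Finsupp.add_apply, Finsupp.smul_apply, smul_eq_mul, Finsupp.finsetSum_apply]
  congr 1
  simp [Finsupp.single_apply]

lemma lx_injective : Function.Injective lx := by
  intro i j hij
  have h1 : ∀ k, 2 * i.1 k + (if k ∈ i.2 then 1 else 0) = 2 * j.1 k + if k ∈ j.2 then 1 else 0 := by
    intro k; rw [← lx_apply, ← lx_apply, hij]
  ext k
  · have := h1 k
    split_ifs at this <;> omega
  · have := h1 k
    split_ifs at this with h2 h3 h3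
    · simp [h2, h3]
    · omega
    · omega
    · simp [h2, h3]

lemma lx_surjective : Function.Surjective lx := by
  intro γ
  refine ⟨(γ.mapRange (fun n => n / 2) (by simp), γ.support.filter (fun k => γ k % 2 = 1)), ?_⟩
  ext k
  rw [lx_apply]
  simp only [Finsupp.mapRange_apply, Finset.mem_filter, Finsupp.mem_support_iff]
  split_ifs with h1
  · omega
  · push Not at h1
    by_cases h2 : γ k = 0
    · rw [h2]
    · have := h1 h2
      omega

/-- weight of an exponent -/
noncomputable abbrev wt (γ : ℕ →₀ ℕ) : ℕ := Finsupp.weight w γ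

lemma Yp_whom (α : ℕ →₀ ℕ) : IsWeightedHomogeneous w (Yp α) (wt (2 • α)) := by
  have h1 : wt (2 • α) = ∑ k ∈ α.support, (α k) • (2 * (k + 1)) := by
    rw [wt, map_nsmul, Finsupp.weight_apply, Finsupp.sum, Finset.smul_sum]
    refine Finset.sum_congr rfl (fun k _ => ?_)
    simp only [w, smul_eq_mul]; ring
  rw [h1, Yp, Finsupp.prod]
  exact IsWeightedHomogeneous.prod _ _ _ (fun k _ => (Y_whom k).pow _)

lemma xp_whom (ε : Finset ℕ) :
    IsWeightedHomogeneous w (xp ε) (wt (∑ k ∈ ε, Finsupp.single k 1)) := by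
  have h1 : wt (∑ k ∈ ε, Finsupp.single k 1) = ∑ k ∈ ε, (k + 1) := by
    rw [wt, map_sum]
    refine Finset.sum_congr rfl (fun k _ => ?_)
    rw [Finsupp.weight_single]; simp [w]
  rw [h1]
  exact IsWeightedHomogeneous.prod _ _ _ (fun k _ => xx_whom k)

lemma b_whom (i : (ℕ →₀ ℕ) × Finset ℕ) : IsWeightedHomogeneous w (b i) (wt (lx i)) := by
  have := (Yp_whom i.1).mul (xp_whom i.2)
  rw [lx, wt, map_add]
  exact this

lemma degree_le_wt (γ : ℕ →₀ ℕ) : γ.degree ≤ wt γ := by
  rw [wt, Finsupp.weight_apply, Finsupp.degree_apply, Finsupp.sum]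
  refine Finset.sum_le_sum (fun k _ => ?_)
  simp only [w, smul_eq_mul]
  nlinarith [Nat.zero_le (γ k), Nat.zero_le k]

lemma monomial_mem_span (γ : ℕ →₀ ℕ) : (monomial γ 1 : R) ∈ Submodule.span (ZMod 2) (Set.range b) := by
  have key : ∀ n : ℕ, ∀ γ : ℕ →₀ ℕ, wt γ - γ.degree < n →
      (monomial γ 1 : R) ∈ Submodule.span (ZMod 2) (Set.range b) := by
    intro n
    induction n with
    | zero => intro γ h; omega
    | succ n ih =>
      intro γ hγ
      obtain ⟨i, rfl⟩ := lx_surjective γ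
      have h1 := b_Lead i
      rw [Lead, mem_pow_idealOfVars_iff] at h1
      have h2 : (b i - monomial (lx i) 1) ∈ Submodule.span (ZMod 2) (Set.range b) := by
        rw [MvPolynomial.as_sum (b i - monomial (lx i) 1)]
        refine Submodule.sum_mem _ (fun δ hδ => ?_)
        have h3 := h1 δ hδ
        have h4 : IsWeightedHomogeneous w (b i - monomial (lx i) 1) (wt (lx i)) :=
          (b_whom i).sub (isWeightedHomogeneous_monomial _ _ _ rfl)
        have h5 : wt δ = wt (lx i) := h4 (mem_support_iff.1 hδ)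
        have h6 := degree_le_wt δ
        have h7 := ih δ (by omega)
        have h8 : (monomial δ (coeff δ (b i - monomial (lx i) 1)) : R) =
            (coeff δ (b i - monomial (lx i) 1)) • monomial δ 1 := by
          rw [smul_monomial, smul_eq_mul, mul_one]
        rw [h8]
        exact Submodule.smul_mem _ _ h7
      have h9 := Submodule.sub_mem _ (Submodule.subset_span (Set.mem_range_self i)) h2
      rwa [sub_sub_cancel] at h9
  exact key (wt γ - γ.degree + 1) γ (by omega)

lemma mem_span (f : R) : f ∈ Submodule.span (ZMod 2) (Set.range b) := by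
  rw [MvPolynomial.as_sum f]
  refine Submodule.sum_mem _ (fun δ _ => ?_)
  have h8 : (monomial δ (coeff δ f) : R) = (coeff δ f) • monomial δ 1 := by
    rw [smul_monomial, smul_eq_mul, mul_one]
  rw [h8]
  exact Submodule.smul_mem _ _ (monomial_mem_span δ)

lemma coeff_b {i j : (ℕ →₀ ℕ) × Finset ℕ} (hij : i ≠ j) (hdeg : (lx i).degree ≤ (lx j).degree) :
    coeff (lx i) (b j) = 0 := by
  have h1 := b_Lead j
  rw [Lead, mem_pow_idealOfVars_iff'] at h1
  have h2 := h1 (lx i) (by omega)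
  rw [coeff_sub, coeff_monomial, if_neg (fun h => hij (lx_injective h.symm)), sub_zero] at h2
  exact h2

lemma coeff_b_self (i : (ℕ →₀ ℕ) × Finset ℕ) : coeff (lx i) (b i) = 1 := by
  have h1 := b_Lead i
  rw [Lead, mem_pow_idealOfVars_iff'] at h1
  have h2 := h1 (lx i) (by omega)
  rw [coeff_sub, coeff_monomial, if_pos rfl, sub_eq_zero] at h2
  exact h2

lemma b_linearIndependent : LinearIndependent (ZMod 2) b := by
  classical
  rw [linearIndependent_iff']
  intro s g hsum
  by_contra hcon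
  push Not at hcon
  obtain ⟨i1, hi1, hgi1⟩ := hcon
  have hne : (s.filter (fun i => g i ≠ 0)).Nonempty := ⟨i1, Finset.mem_filter.2 ⟨hi1, hgi1⟩⟩
  obtain ⟨i, hi, hmin⟩ := Finset.exists_min_image _ (fun i => (lx i).degree) hne
  rw [Finset.mem_filter] at hi
  have h1 := congrArg (coeff (lx i)) hsum
  rw [coeff_sum, coeff_zero] at h1
  rw [Finset.sum_eq_single i] at h1
  · rw [coeff_smul, coeff_b_self, smul_eq_mul, mul_one] at h1
    exact hi.2 h1
  · intro j hj hji
    rw [coeff_smul]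
    by_cases hg : g j = 0
    · rw [hg, zero_smul]
    · rw [coeff_b hji.symm (hmin j (Finset.mem_filter.2 ⟨hj, hg⟩)), smul_zero]
  · intro h; exact absurd hi.1 h

end Pool.Agent.Lib_helper59.Omega
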