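import Mathlib
import Pool.Agent.Lib_helper59.OmegaC

set_option autoImplicit false

namespace Pool.Agent.Lib_helper59.Omega

open MvPolynomial

/-- index type of the basis -/
abbrev Ix : Type := (ℕ →₀ ℕ) × Finset ℕ

/-- span of the basis elements with index in `T`. -/
noncomputable def Sp (T : Set Ix) : Submodule (ZMod 2) R := Submodule.span (ZMod 2) (b '' T)

lemma b_mem_Sp {T : Set Ix} {i : Ix} (hi : i ∈ T) : b i ∈ Sp T :=
  Submodule.subset_span ⟨i, hi, rfl⟩

lemma Sp_mono {T T' : Set Ix} (h : T ⊆ T') : Sp T ≤ Sp T' :=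
  Submodule.span_mono (Set.image_mono h)

lemma Sp_disjoint {T T' : Set Ix} (h : Disjoint T T') {f : R} (hf : f ∈ Sp T) (hf' : f ∈ Sp T') :
    f = 0 := by
  have := b_linearIndependent.disjoint_span_image h
  exact (Submodule.disjoint_def.1 this) f hf hf'

/-- closure of `Sp T` under an additive operation, from the basis. -/
lemma Sp_induction {T : Set Ix} {Q : Submodule (ZMod 2) R} (F : R →ₗ[ZMod 2] R)
    (h : ∀ i ∈ T, F (b i) ∈ Q) {f : R} (hf : f ∈ Sp T) : F f ∈ Q := by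
  have : Sp T ≤ Q.comap F := by
    refine Submodule.span_le.2 ?_
    rintro _ ⟨i, hi, rfl⟩
    exact h i hi
  exact this hf

/-- `U` indices: `x_N = e_{2N+2}` does not occur. -/
def TU (N : ℕ) : Set Ix := {i | 2 * N + 1 ∉ i.2}

/-- `W` indices: neither `x_N` nor `Y_N` occurs. -/
def TW (N : ℕ) : Set Ix := {i | 2 * N + 1 ∉ i.2 ∧ i.1 N = 0}

/-- `M n`: at least `n` factors `Y`. -/
def TM (n : ℕ) : Set Ix := {i | n ≤ i.1.degree}

lemma Y_mul_b (k : ℕ) (i : Ix) : Y k * b i = b (i.1 + Finsupp.single k 1, i.2) := by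
  simp only [b, Yp_add, Yp_single, pow_one]; ring

/-- `ω` of a basis element as a sum of products. -/
lemma ω_b (i : Ix) : ω (b i) =
    ∑ t ∈ i.2.powerset, (∏ k ∈ i.2 \ t, dl k) * b (i.1, t) := by
  have h1 : ω (Yp i.1) = Yp i.1 := by
    rw [Yp, Finsupp.prod, map_prod]
    refine Finset.prod_congr rfl (fun k _ => ?_)
    rw [map_pow, ω_Y]
  have h2 : ω (xp i.2) = ∏ k ∈ i.2, (xx k + dl k) := by
    rw [xp, map_prod]
    exact Finset.prod_congr rfl (fun k _ => ω_xx k)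
  rw [b, map_mul, h1, h2, Finset.prod_add, Finset.mul_sum]
  refine Finset.sum_congr rfl (fun t _ => ?_)
  rw [b, xp]; ring

/-- a set of indices is good if it is stable under removing elements of `ε` and replacing
them by the corresponding `Y`. -/
lemma ω_mem {T : Set Ix} (hT1 : ∀ i ∈ T, ∀ t ⊆ i.2, (i.1, t) ∈ T)
    (K : Set ℕ) (hT2 : ∀ i ∈ T, ∀ k ∈ K, (i.1 + Finsupp.single k 1, i.2) ∈ T)
    (hT3 : ∀ i ∈ T, ∀ k ∈ i.2, ¬ Even k → k / 2 ∈ K)
    {f : R} (hf : f ∈ Sp T) : ω f ∈ Sp T := by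
  have hY : ∀ k ∈ K, ∀ g ∈ Sp T, Y k * g ∈ Sp T := by
    intro k hk g hg
    refine Sp_induction (LinearMap.mulLeft (ZMod 2) (Y k)) (fun i hi => ?_) hg
    rw [LinearMap.mulLeft_apply, Y_mul_b]
    exact b_mem_Sp (hT2 i hi k hk)
  have hdl : ∀ s : Finset ℕ, (∀ k ∈ s, ¬ Even k → k / 2 ∈ K) → ∀ g ∈ Sp T,
      (∏ k ∈ s, dl k) * g ∈ Sp T := by
    classical
    intro s
    induction s using Finset.induction_on with
    | empty => intro _ g hg; simpa using hg
    | insert a s ha ih =>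
      intro hs g hg
      rw [Finset.prod_insert ha, mul_assoc]
      have h1 := ih (fun k hk => hs k (Finset.mem_insert_of_mem hk)) g hg
      rw [dl]
      split_ifs with h2
      · rw [zero_mul]; exact Submodule.zero_mem _
      · exact hY _ (hs a (Finset.mem_insert_self _ _) h2) _ h1
  refine Sp_induction ω.toLinearMap (fun i hi => ?_) hf
  rw [AlgHom.toLinearMap_apply, ω_b]
  refine Submodule.sum_mem _ (fun t ht => ?_)
  rw [Finset.mem_powerset] at ht
  refine hdl _ (fun k hk => hT3 i hi k (Finset.sdiff_subset hk)) _ (b_mem_Sp (hT1 i hi t ht))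

lemma ω_TU {N : ℕ} {f : R} (hf : f ∈ Sp (TU N)) : ω f ∈ Sp (TU N) :=
  ω_mem (T := TU N) (fun _ hi _ ht h => hi (ht h)) Set.univ (fun _ hi _ _ => hi)
    (fun _ _ _ _ _ => trivial) hf

lemma ω_TW {N : ℕ} {f : R} (hf : f ∈ Sp (TW N)) : ω f ∈ Sp (TW N) := by
  refine ω_mem (T := TW N) (fun i hi t ht => ⟨fun h => hi.1 (ht h), hi.2⟩) {k | k ≠ N} (fun i hi k hk => ?_)
    (fun i hi k hk hk' => ?_) hf
  · refine ⟨hi.1, ?_⟩
    simp only [Finsupp.add_apply, hi.2, zero_add]
    rw [Finsupp.single_eq_of_ne]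
    exact (Ne.symm hk)
  · intro h
    apply hi.1
    rw [Nat.not_even_iff_odd] at hk'
    obtain ⟨r, hr⟩ := hk'
    have : k = 2 * N + 1 := by omega
    rwa [this] at hk

lemma d_TU {N : ℕ} {f : R} (hf : f ∈ Sp (TU N)) : d f ∈ Sp (TU N) :=
  Submodule.add_mem _ hf (ω_TU hf)

lemma d_TW {N : ℕ} {f : R} (hf : f ∈ Sp (TW N)) : d f ∈ Sp (TW N) :=
  Submodule.add_mem _ hf (ω_TW hf)

/-- the variable `x_N = e_{2N+2}`. -/
noncomputable def xN (N : ℕ) : R := X (2 * N + 1)

lemma xx_odd (N : ℕ) : xx (2 * N + 1) = xN N := by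
  rw [xx, if_neg (by rw [Nat.not_even_iff_odd]; exact ⟨N, rfl⟩), xN]

lemma xN_mul_b (N : ℕ) (i : Ix) (hi : 2 * N + 1 ∉ i.2) :
    xN N * b i = b (i.1, insert (2 * N + 1) i.2) := by
  simp only [b, xp]
  rw [Finset.prod_insert hi, xx_odd]; ring

lemma Y_ne_zero (N : ℕ) : Y N ≠ 0 := by
  have h1 := b_linearIndependent.ne_zero (Finsupp.single N 1, (∅ : Finset ℕ))
  simpa [b, xp, Yp_single] using h1

lemma xN_ne_zero (N : ℕ) : xN N ≠ 0 := X_ne_zero _

/-- uniqueness of the decomposition `u0 + Y u1 + x v`. -/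
lemma uniq {N : ℕ} {u0 u1 v : R} (h0 : u0 ∈ Sp (TW N)) (h1 : u1 ∈ Sp (TU N)) (h2 : v ∈ Sp (TU N))
    (h : u0 + Y N * u1 + xN N * v = 0) : u0 = 0 ∧ u1 = 0 ∧ v = 0 := by
  have hY : Y N * u1 ∈ Sp {i | 2 * N + 1 ∉ i.2 ∧ i.1 N ≠ 0} := by
    refine Sp_induction (LinearMap.mulLeft (ZMod 2) (Y N)) (fun i hi => ?_) h1
    rw [LinearMap.mulLeft_apply, Y_mul_b]
    refine b_mem_Sp ⟨hi, ?_⟩
    simp
  have hx : xN N * v ∈ Sp {i | 2 * N + 1 ∈ i.2} := by
    refine Sp_induction (LinearMap.mulLeft (ZMod 2) (xN N)) (fun i hi => ?_) h2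
    rw [LinearMap.mulLeft_apply, xN_mul_b _ _ hi]
    refine b_mem_Sp ?_
    simp
  have hu : u0 + Y N * u1 ∈ Sp {i | 2 * N + 1 ∉ i.2} :=
    Submodule.add_mem _ (Sp_mono (fun i hi => hi.1) h0) (Sp_mono (fun i hi => hi.1) hY)
  have e1 : xN N * v = u0 + Y N * u1 := by
    have := add_self (xN N * v)
    linear_combination this - h
  have e2 : xN N * v = 0 := by
    refine Sp_disjoint ?_ hx (by rw [e1]; exact hu)
    rw [Set.disjoint_left]
    intro i hi hi'
    exact hi' hi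
  have e3 : Y N * u1 = u0 := by
    rw [e2] at h
    have := add_self (Y N * u1)
    linear_combination this - h
  have e4 : Y N * u1 = 0 := by
    refine Sp_disjoint ?_ hY (by rw [e3]; exact h0)
    rw [Set.disjoint_left]
    intro i hi hi'
    exact hi.2 hi'.2
  refine ⟨by rw [← e3, e4], ?_, ?_⟩
  · exact (mul_eq_zero.1 e4).resolve_left (Y_ne_zero N)
  · exact (mul_eq_zero.1 e2).resolve_left (xN_ne_zero N)

/-- existence of the decomposition. -/
lemma decomp (N : ℕ) {T : Set Ix} {n : ℕ} (hT : T ⊆ TM n) {f : R} (hf : f ∈ Sp T) :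
    ∃ u0 u1 v : R, u0 ∈ Sp (T ∩ TW N) ∧ u1 ∈ Sp (TM (n - 1) ∩ TU N) ∧ v ∈ Sp (TU N) ∧
      f = u0 + Y N * u1 + xN N * v := by
  classical
  refine Submodule.span_induction ?_ ?_ ?_ ?_ hf
  · rintro _ ⟨i, hi, rfl⟩
    by_cases h1 : 2 * N + 1 ∈ i.2
    · refine ⟨0, 0, b (i.1, i.2.erase (2 * N + 1)), Submodule.zero_mem _, Submodule.zero_mem _,
        b_mem_Sp (by simp [TU]), ?_⟩
      rw [xN_mul_b _ _ (by simp)]
      simp [Finset.insert_erase h1]
    · by_cases h2 : i.1 N = 0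
      · refine ⟨b i, 0, 0, b_mem_Sp ⟨hi, h1, h2⟩, Submodule.zero_mem _, Submodule.zero_mem _, ?_⟩
        simp
      · have h3 : (i.1 - Finsupp.single N 1) + Finsupp.single N 1 = i.1 := by
          ext k
          simp only [Finsupp.add_apply, Finsupp.tsub_apply]
          by_cases hk : k = N
          · subst hk; simp only [Finsupp.single_eq_same]; omega
          · rw [Finsupp.single_eq_of_ne hk]; omega
        refine ⟨0, b (i.1 - Finsupp.single N 1, i.2), 0, Submodule.zero_mem _,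
          b_mem_Sp ⟨?_, h1⟩, Submodule.zero_mem _, ?_⟩
        · have h4 := congrArg Finsupp.degree h3
          rw [map_add, Finsupp.degree_single] at h4
          have h5 : n ≤ i.1.degree := hT hi
          show n - 1 ≤ (i.1 - Finsupp.single N 1).degree
          omega
        · rw [Y_mul_b]
          simp only [h3]
          simp
  · exact ⟨0, 0, 0, Submodule.zero_mem _, Submodule.zero_mem _, Submodule.zero_mem _, by simp⟩
  · rintro x y _ _ ⟨u0, u1, v, h0, h1, h2, rfl⟩ ⟨u0', u1', v', h0', h1', h2', rfl⟩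
    exact ⟨u0 + u0', u1 + u1', v + v', Submodule.add_mem _ h0 h0', Submodule.add_mem _ h1 h1',
      Submodule.add_mem _ h2 h2', by ring⟩
  · rintro a x _ ⟨u0, u1, v, h0, h1, h2, rfl⟩
    refine ⟨a • u0, a • u1, a • v, Submodule.smul_mem _ _ h0, Submodule.smul_mem _ _ h1,
      Submodule.smul_mem _ _ h2, ?_⟩
    simp only [smul_add, mul_smul_comm]

/-- eliminate one pair. -/
lemma eliminate (N : ℕ) {T : Set Ix} {n : ℕ} (hT : T ⊆ TM n) {f : R} (hf : f ∈ Sp T)
    (hd : d f = 0) :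
    ∃ g ∈ Sp (TM (n - 1)), f + d g ∈ Sp (T ∩ TW N) := by
  obtain ⟨u0, u1, v, h0, h1, h2, rfl⟩ := decomp N hT hf
  have h1' : u1 ∈ Sp (TU N) := Sp_mono Set.inter_subset_right h1
  have h1'' : u1 ∈ Sp (TM (n - 1)) := Sp_mono Set.inter_subset_left h1
  have h0' : u0 ∈ Sp (TW N) := Sp_mono Set.inter_subset_right h0
  have hdx : d (xN N) = Y N := rfl
  have e1 : d (Y N * u1) = Y N * d u1 := d_mul_left (ω_Y N) _
  have e2 : d (xN N * v) = xN N * d v + (v + d v) * Y N := by
    rw [d_mul, hdx]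
    have : ω v = v + d v := by rw [d, ← add_assoc, add_self, zero_add]
    rw [this]
  have e3 : d u0 + Y N * (d u1 + (v + d v)) + xN N * d v = 0 := by
    rw [d_add, d_add, e1, e2] at hd
    linear_combination hd
  obtain ⟨k0, k1, k2⟩ := uniq (d_TW h0')
    (Submodule.add_mem _ (d_TU h1') (Submodule.add_mem _ h2 (d_TU h2))) (d_TU h2) e3
  have hv : v = d u1 := by
    rw [k2, add_zero] at k1
    have := add_self v
    linear_combination this - k1
  refine ⟨(xN N + Y N) * u1, ?_, ?_⟩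
  · rw [add_mul]
    refine Submodule.add_mem _ ?_ ?_
    · refine Sp_induction (LinearMap.mulLeft (ZMod 2) (xN N)) (fun i hi => ?_) h1
      rw [LinearMap.mulLeft_apply, xN_mul_b _ _ hi.2]
      exact b_mem_Sp hi.1
    · refine Sp_induction (LinearMap.mulLeft (ZMod 2) (Y N)) (fun i hi => ?_) h1''
      rw [LinearMap.mulLeft_apply, Y_mul_b]
      refine b_mem_Sp ?_
      have : n - 1 ≤ i.1.degree := hi
      show n - 1 ≤ (i.1 + Finsupp.single N 1).degree
      rw [map_add]; omega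
  · have e4 : d ((xN N + Y N) * u1) = xN N * d u1 + Y N * u1 := by
      rw [add_mul, d_add, e1, d_mul, hdx]
      have h3 : ω u1 = u1 + d u1 := by rw [d, ← add_assoc, add_self, zero_add]
      rw [h3]
      have := add_self (Y N * d u1)
      linear_combination this
    have e5 : u0 + Y N * u1 + xN N * v + d ((xN N + Y N) * u1) = u0 := by
      rw [e4, hv]
      have h3 := add_self (Y N * u1)
      have h4 := add_self (xN N * d u1)
      linear_combination h3 + h4
    rw [e5]; exact h0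

lemma d_d (x : R) : d (d x) = 0 := mem_S_iff_d.1 (d_mem_S x)

/-- index set used in the induction. -/
def TT (n K L : ℕ) : Set Ix :=
  {i | n ≤ i.1.degree ∧ (∀ N < K, i.1 N = 0) ∧ (∀ N ≥ L, i.1 N = 0)}

lemma eliminate_all {n L : ℕ} {f : R} (hf : f ∈ Sp (TT n 0 L)) (hd : d f = 0) :
    ∀ K : ℕ, ∃ g ∈ Sp (TM (n - 1)), f + d g ∈ Sp (TT n K L) := by
  intro K
  induction K with
  | zero =>
    refine ⟨0, Submodule.zero_mem _, ?_⟩
    have : d 0 = 0 := by simp [d]
    rw [this, add_zero]; exact hf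
  | succ K ih =>
    obtain ⟨g, hg, hfg⟩ := ih
    have hd' : d (f + d g) = 0 := by rw [d_add, hd, d_d, add_zero]
    obtain ⟨g', hg', hfg'⟩ := eliminate K (n := n) (fun i hi => hi.1) hfg hd'
    refine ⟨g + g', Submodule.add_mem _ hg hg', ?_⟩
    rw [d_add, ← add_assoc]
    refine Sp_mono ?_ hfg'
    rintro i ⟨hi, hi'⟩
    refine ⟨hi.1, fun N hN => ?_, hi.2.2⟩
    rcases Nat.lt_succ_iff_lt_or_eq.1 hN with h | h
    · exact hi.2.1 N h
    · rw [h]; exact hi'.2

lemma exists_L {n : ℕ} {f : R} (hf : f ∈ Sp (TM n)) : ∃ L, f ∈ Sp (TT n 0 L) := by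
  classical
  refine Submodule.span_induction ?_ ?_ ?_ ?_ hf
  · rintro _ ⟨i, hi, rfl⟩
    refine ⟨i.1.support.sup id + 1, b_mem_Sp ⟨hi, by intro N hN; omega, fun N hN => ?_⟩⟩
    by_contra h
    have : N ∈ i.1.support := Finsupp.mem_support_iff.2 h
    have := Finset.le_sup (f := id) this
    simp only [id] at this
    omega
  · exact ⟨0, Submodule.zero_mem _⟩
  · rintro x y _ _ ⟨L, hL⟩ ⟨L', hL'⟩
    refine ⟨max L L', Submodule.add_mem _ (Sp_mono ?_ hL) (Sp_mono ?_ hL')⟩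
    · intro i hi
      exact ⟨hi.1, hi.2.1, fun N hN => hi.2.2 N (le_trans (le_max_left _ _) hN)⟩
    · intro i hi
      exact ⟨hi.1, hi.2.1, fun N hN => hi.2.2 N (le_trans (le_max_right _ _) hN)⟩
  · rintro a x _ ⟨L, hL⟩
    exact ⟨L, Submodule.smul_mem _ _ hL⟩

/-- the core claim. -/
lemma core {n : ℕ} (hn : 1 ≤ n) {f : R} (hf : f ∈ Sp (TM n)) (hd : d f = 0) :
    ∃ g ∈ Sp (TM (n - 1)), f = d g := by
  obtain ⟨L, hL⟩ := exists_L hf
  obtain ⟨g, hg, hfg⟩ := eliminate_all hL hd L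
  refine ⟨g, hg, ?_⟩
  have hempty : TT n L L = ∅ := by
    rw [Set.eq_empty_iff_forall_notMem]
    rintro i ⟨h1, h2, h3⟩
    have : i.1 = 0 := by
      ext N
      rcases lt_or_ge N L with h | h
      · exact h2 N h
      · exact h3 N h
    rw [this] at h1
    simp at h1
    omega
  rw [hempty, Sp, Set.image_empty, Submodule.span_empty, Submodule.mem_bot] at hfg
  have := add_self (d g)
  linear_combination hfg - this

/-! ### ideals -/

lemma mem_TM_zero (f : R) : f ∈ Sp (TM 0) := by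
  have h1 := mem_span f
  have : TM 0 = Set.univ := by
    rw [Set.eq_univ_iff_forall]; intro i; exact Nat.zero_le _
  rw [Sp, this, Set.image_univ]; exact h1

lemma J_pow (n : ℕ) : ∀ f ∈ J ^ n, f ∈ Sp (TM n) := by
  induction n with
  | zero => intro f _; exact mem_TM_zero f
  | succ n ih =>
    intro f hf
    rw [pow_succ] at hf
    refine Submodule.mul_induction_on hf ?_ ?_
    · intro x hx y hy
      have key : ∀ y ∈ J, ∀ x ∈ J ^ n, x * y ∈ Sp (TM (n + 1)) := by
        intro y hy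
        refine Submodule.span_induction ?_ ?_ ?_ ?_ hy
        · rintro _ ⟨k, rfl⟩ x hx
          rw [mul_comm]
          refine Sp_induction (LinearMap.mulLeft (ZMod 2) (Y k)) (fun i hi => ?_) (ih x hx)
          rw [LinearMap.mulLeft_apply, Y_mul_b]
          refine b_mem_Sp ?_
          have : n ≤ i.1.degree := hi
          show n + 1 ≤ (i.1 + Finsupp.single k 1).degree
          rw [map_add, Finsupp.degree_single]; omega
        · intro x _; rw [mul_zero]; exact Submodule.zero_mem _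
        · intro a c _ _ ha hc x hx
          rw [mul_add]; exact Submodule.add_mem _ (ha x hx) (hc x hx)
        · intro r a _ ha x hx
          rw [smul_eq_mul, ← mul_assoc]
          exact ha _ (Ideal.mul_mem_right _ _ hx)
      exact key y hy x hx
    · intro x y hx hy
      exact Submodule.add_mem _ hx hy

lemma map_I_le : Ideal.map S.subtype I ≤ J := by
  rw [Ideal.map_le_iff_le_comap]
  rintro s ⟨x, hx⟩
  rw [Ideal.mem_comap]
  show (s : R) ∈ J
  rw [hx]; exact d_mem_J x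

/-- `Y^α` as an element of `S`, lying in `I^|α|`. -/
lemma Yp_mem (α : ℕ →₀ ℕ) : ∃ s : S, (s : R) = Yp α ∧ s ∈ I ^ α.degree := by
  classical
  induction α using Finsupp.induction with
  | zero => exact ⟨1, by simp [Yp_zero], by simp⟩
  | single_add k n α _ _ ih =>
    obtain ⟨s, hs, hs'⟩ := ih
    have hy : (⟨Y k, d_mem_S _⟩ : S) ∈ I := ⟨X (2 * k + 1), rfl⟩
    refine ⟨(⟨Y k, d_mem_S _⟩ : S) ^ n * s, ?_, ?_⟩
    · rw [Yp_add, Yp_single, Subring.coe_mul, Subring.coe_pow, hs]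
    · rw [map_add, Finsupp.degree_single, pow_add]
      exact Ideal.mul_mem_mul (Ideal.pow_mem_pow hy n) hs'

lemma d_Sp_TM (m : ℕ) {g : R} (hg : g ∈ Sp (TM m)) : (⟨d g, d_mem_S g⟩ : S) ∈ I ^ (m + 1) := by
  have key : ∃ s : S, (s : R) = d g ∧ s ∈ I ^ (m + 1) := by
    refine Submodule.span_induction ?_ ?_ ?_ ?_ hg
    · rintro _ ⟨i, hi, rfl⟩
      obtain ⟨s, hs, hs'⟩ := Yp_mem i.1
      refine ⟨s * ⟨d (xp i.2), d_mem_S _⟩, ?_, ?_⟩
      · rw [Subring.coe_mul, hs, b, d_mul_left]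
        rw [← hs]; exact mem_S.1 s.2
      · rw [pow_succ]
        exact Ideal.mul_mem_mul (Ideal.pow_le_pow_right hi hs') ⟨xp i.2, rfl⟩
    · exact ⟨0, by simp [d], Submodule.zero_mem _⟩
    · rintro x y _ _ ⟨s, hs, hs'⟩ ⟨t, ht, ht'⟩
      exact ⟨s + t, by rw [Subring.coe_add, hs, ht, d_add], Ideal.add_mem _ hs' ht'⟩
    · rintro a x _ ⟨s, hs, hs'⟩
      have ha : a = 0 ∨ a = 1 := by
        fin_cases a
        · left; rfl
        · right; rfl
      rcases ha with rfl | rfl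
      · exact ⟨0, by simp [d], Submodule.zero_mem _⟩
      · exact ⟨s, by rw [hs, one_smul], hs'⟩
  obtain ⟨s, hs, hs'⟩ := key
  have : s = ⟨d g, d_mem_S g⟩ := Subtype.ext hs
  rwa [← this]

theorem transverse (n : ℕ) : (Ideal.map S.subtype (I ^ n)).comap S.subtype = I ^ n := by
  refine le_antisymm ?_ Ideal.le_comap_map
  rcases Nat.eq_zero_or_pos n with rfl | hn
  · simp
  · intro s hs
    rw [Ideal.mem_comap, Ideal.map_pow] at hs
    have h1 : (s : R) ∈ Sp (TM n) := J_pow n _ (Ideal.pow_right_mono map_I_le n hs)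
    obtain ⟨g, hg, hsg⟩ := core hn h1 (mem_S_iff_d.1 s.2)
    have h2 := d_Sp_TM (n - 1) hg
    rw [Nat.sub_add_cancel hn] at h2
    have : s = ⟨d g, d_mem_S g⟩ := Subtype.ext hsg
    rwa [this]

end Pool.Agent.Lib_helper59.Omega
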